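import Mathlib

set_option autoImplicit false

open Metric Finset

namespace Pool.Agent.Results.MP_de3d06_an.WienerThreshold

/-- The `n`-th Taylor coefficient of `f` at `0`. -/
noncomputable def taylorCoeff (f : ℂ → ℂ) (n : ℕ) : ℂ := iteratedDeriv n f 0 / (n.factorial : ℂ)

/-- The Wiener norm: the sum of the absolute values of the Taylor coefficients at `0`
(possibly infinite). -/
noncomputable def wNorm (f : ℂ → ℂ) : ENNReal := ∑' n, ‖taylorCoeff f n‖ₑ

/-- The class of functions analytic in the open unit disc, of Wiener norm `1`, and of absolute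
value at least `δ` in the open unit disc. -/
def Fam (δ : ℝ) : Set (ℂ → ℂ) :=
  {f | DifferentiableOn ℂ f (ball 0 1) ∧ wNorm f = 1 ∧ ∀ z ∈ ball (0 : ℂ) 1, δ ≤ ‖f z‖}

/-- `M(f)`, the Wiener norm of `1 / f`. -/
noncomputable def invNorm (f : ℂ → ℂ) : ENNReal := wNorm (fun z => 1 / f z)

/-- `C(δ)`, the supremum of `M(f)` over the class. -/
noncomputable def supInv (δ : ℝ) : ENNReal := ⨆ f ∈ Fam δ, invNorm f

/-- The threshold `δ₀`. -/
noncomputable def delta0 : ℝ := sInf {δ : ℝ | 0 < δ ∧ δ ≤ 1 ∧ supInv δ < ⊤}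

lemma hasSum_taylor {f : ℂ → ℂ} (hf : DifferentiableOn ℂ f (ball 0 1)) {z : ℂ}
    (hz : z ∈ ball (0 : ℂ) 1) : HasSum (fun n => taylorCoeff f n * z ^ n) (f z) := by
  have h := Complex.hasSum_taylorSeries_on_ball (c := 0) (r := (1 : NNReal)) (f := f)
    (by simpa using hf) (z := z) (by simpa using hz)
  have e : (fun n => taylorCoeff f n * z ^ n)
      = fun n => ((n.factorial : ℂ))⁻¹ • (z - 0) ^ n • iteratedDeriv n f 0 := by
    funext n
    simp [taylorCoeff, smul_eq_mul]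
    ring
  rw [e]
  exact h

lemma summable_norm_of {c : ℕ → ℂ} {z s : ℂ} (h : HasSum (fun n => c n * z ^ n) s) :
    Summable (fun n => ‖c n * z ^ n‖) := h.summable.norm

lemma hasFPS {f : ℂ → ℂ} {c : ℕ → ℂ}
    (h : ∀ z ∈ ball (0 : ℂ) 1, HasSum (fun n => c n * z ^ n) (f z)) :
    HasFPowerSeriesAt f (FormalMultilinearSeries.ofScalars ℂ c) 0 := by
  refine ⟨((1 / 2 : NNReal) : ENNReal), ?_⟩
  refine ⟨?_, by norm_num, ?_⟩
  · apply FormalMultilinearSeries.le_radius_of_summable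
    have h2 := (h (1 / 2) (by simp; norm_num)).summable.norm
    convert h2 using 1
    funext n
    rw [FormalMultilinearSeries.ofScalars_norm, norm_mul, norm_pow]
    norm_num
  · intro y hy
    have hy' : y ∈ ball (0 : ℂ) 1 := by
      rw [mem_ball_zero_iff]
      rw [Metric.mem_eball, edist_zero_right] at hy
      have h1 : ‖y‖₊ < (1 / 2 : NNReal) := by exact_mod_cast hy
      have h2 : ‖y‖ < 1 / 2 := by exact_mod_cast h1
      linarith
    rw [zero_add]
    have e : (fun n => FormalMultilinearSeries.ofScalars ℂ c n fun _ => y)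
        = fun n => c n * y ^ n := by
      funext n
      rw [FormalMultilinearSeries.ofScalars_apply_eq]
      simp [smul_eq_mul]
    rw [e]
    exact h y hy'

lemma coeff_unique {f : ℂ → ℂ} {c d : ℕ → ℂ}
    (h : ∀ z ∈ ball (0 : ℂ) 1, HasSum (fun n => c n * z ^ n) (f z))
    (h' : ∀ z ∈ ball (0 : ℂ) 1, HasSum (fun n => d n * z ^ n) (f z)) : c = d := by
  have := (hasFPS h).eq_formalMultilinearSeries (hasFPS h')
  exact FormalMultilinearSeries.ofScalars_series_injective ℂ ℂ this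

noncomputable def W (P : PowerSeries ℂ) : ENNReal := ∑' n, ‖PowerSeries.coeff n P‖ₑ

lemma W_mul_le (P Q : PowerSeries ℂ) : W (P * Q) ≤ W P * W Q := by
  unfold W
  calc ∑' n, ‖PowerSeries.coeff n (P * Q)‖ₑ
      ≤ ∑' n, ∑ p ∈ antidiagonal n, ‖PowerSeries.coeff p.1 P‖ₑ * ‖PowerSeries.coeff p.2 Q‖ₑ := by
        apply ENNReal.tsum_le_tsum
        intro n
        rw [PowerSeries.coeff_mul]
        refine (enorm_sum_le _ _).trans (le_of_eq ?_)
        apply Finset.sum_congr rfl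
        intro p _
        rw [enorm_mul]
    _ = ∑' n, ∑' p : (antidiagonal n), ‖PowerSeries.coeff p.1.1 P‖ₑ * ‖PowerSeries.coeff p.1.2 Q‖ₑ := by
        congr 1; funext n
        exact (Finset.tsum_subtype (antidiagonal n)
          (fun p : ℕ × ℕ => ‖PowerSeries.coeff p.1 P‖ₑ * ‖PowerSeries.coeff p.2 Q‖ₑ)).symm
    _ = ∑' x : (Σ n : ℕ, antidiagonal n),
          ‖PowerSeries.coeff x.2.1.1 P‖ₑ * ‖PowerSeries.coeff x.2.1.2 Q‖ₑ := by
        exact (ENNReal.tsum_sigma' (fun x : (Σ n : ℕ, antidiagonal n) =>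
          ‖PowerSeries.coeff x.2.1.1 P‖ₑ * ‖PowerSeries.coeff x.2.1.2 Q‖ₑ)).symm
    _ = ∑' x : ℕ × ℕ, ‖PowerSeries.coeff x.1 P‖ₑ * ‖PowerSeries.coeff x.2 Q‖ₑ := by
        exact (Finset.HasAntidiagonal.sigmaAntidiagonalEquivProd (A := ℕ)).tsum_eq
          (fun x : ℕ × ℕ => ‖PowerSeries.coeff x.1 P‖ₑ * ‖PowerSeries.coeff x.2 Q‖ₑ)
    _ = (∑' n, ‖PowerSeries.coeff n P‖ₑ) * ∑' n, ‖PowerSeries.coeff n Q‖ₑ := by
        rw [ENNReal.tsum_prod']
        simp_rw [ENNReal.tsum_mul_left, ENNReal.tsum_mul_right]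

lemma W_add_le (P Q : PowerSeries ℂ) : W (P + Q) ≤ W P + W Q := by
  unfold W
  rw [← ENNReal.tsum_add]
  apply ENNReal.tsum_le_tsum
  intro n
  rw [map_add]
  exact enorm_add_le _ _

lemma W_neg (P : PowerSeries ℂ) : W (-P) = W P := by
  unfold W
  congr 1; funext n
  rw [map_neg, enorm_neg]

lemma W_sub_le (P Q : PowerSeries ℂ) : W (P - Q) ≤ W P + W Q := by
  rw [sub_eq_add_neg]
  refine (W_add_le _ _).trans ?_
  rw [W_neg]

lemma W_monomial (n : ℕ) (c : ℂ) : W (PowerSeries.monomial n c) = ‖c‖ₑ := by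
  unfold W
  rw [tsum_eq_single n]
  · rw [PowerSeries.coeff_monomial_same]
  · intro m hm
    rw [PowerSeries.coeff_monomial, if_neg hm, enorm_zero]

lemma W_one : W (1 : PowerSeries ℂ) = 1 := by
  have := W_monomial 0 1
  simpa using this

lemma W_pow_le (P : PowerSeries ℂ) (hP : W P ≤ 1) (m : ℕ) : W (P ^ m) ≤ 1 := by
  induction m with
  | zero => rw [pow_zero, W_one]
  | succ m ih =>
    rw [pow_succ]
    exact (W_mul_le _ _).trans (mul_le_one' ih hP)

lemma W_sum_le {ι : Type*} (s : Finset ι) (F : ι → PowerSeries ℂ) :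
    W (∑ i ∈ s, F i) ≤ ∑ i ∈ s, W (F i) := by
  classical
  induction s using Finset.induction_on with
  | empty => simp [W]
  | insert a s ha ih =>
    rw [Finset.sum_insert ha, Finset.sum_insert ha]
    exact (W_add_le _ _).trans (add_le_add_right ih _)

lemma mk_mul_mk {f g : ℂ → ℂ} {a b : ℕ → ℂ}
    (ha : ∀ z ∈ ball (0 : ℂ) 1, HasSum (fun n => a n * z ^ n) (f z))
    (hb : ∀ z ∈ ball (0 : ℂ) 1, HasSum (fun n => b n * z ^ n) (g z))
    (hfg : ∀ z ∈ ball (0 : ℂ) 1, f z * g z = 1) :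
    PowerSeries.mk a * PowerSeries.mk b = 1 := by
  have key : (fun n => ∑ p ∈ antidiagonal n, a p.1 * b p.2) = fun n => if n = 0 then 1 else 0 := by
    apply coeff_unique (f := fun _ => 1)
    · intro z hz
      have h1 := (ha z hz).summable.norm
      have h2 := (hb z hz).summable.norm
      have h3 := tsum_mul_tsum_eq_tsum_sum_antidiagonal_of_summable_norm h1 h2
      have h4 := (summable_norm_sum_mul_antidiagonal_of_summable_norm h1 h2).of_norm
      rw [(ha z hz).tsum_eq, (hb z hz).tsum_eq, hfg z hz] at h3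
      have h5 := h4.hasSum
      rw [← h3] at h5
      have e : (fun n => (∑ p ∈ antidiagonal n, a p.1 * b p.2) * z ^ n)
          = fun n => ∑ kl ∈ antidiagonal n, a kl.1 * z ^ kl.1 * (b kl.2 * z ^ kl.2) := by
        funext n
        rw [Finset.sum_mul]
        apply Finset.sum_congr rfl
        intro p hp
        rw [HasAntidiagonal.mem_antidiagonal] at hp
        rw [← hp, pow_add]
        ring
      rw [e]
      exact h5
    · intro z _
      have : (fun n => (if n = 0 then (1 : ℂ) else 0) * z ^ n) = fun n => if n = 0 then 1 else 0 := by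
        funext n
        by_cases hn : n = 0
        · subst hn; simp
        · simp [hn]
      rw [this]
      exact hasSum_ite_eq 0 1
  ext n
  rw [PowerSeries.coeff_mul]
  simp only [PowerSeries.coeff_mk]
  rw [PowerSeries.coeff_one]
  exact congrFun key n

/-- upper bound on the coefficients of the inverse -/
lemma inverse_bound {a b : ℕ → ℂ} {δ : ℝ} (hδ : 1 / 2 < δ)
    (hab : PowerSeries.mk a * PowerSeries.mk b = 1)
    (ha : HasSum (fun n => ‖a n‖) 1) (h0 : δ ≤ ‖a 0‖) (N : ℕ) :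
    ∑ n ∈ range N, ‖b n‖ ≤ 1 / (2 * δ - 1) := by
  have hcoef : ∀ n, ∑ k ∈ range (n + 1), a k * b (n - k) = if n = 0 then 1 else 0 := by
    intro n
    have := congrArg (PowerSeries.coeff n) hab
    rw [PowerSeries.coeff_mul, PowerSeries.coeff_one,
      Finset.Nat.sum_antidiagonal_eq_sum_range_succ_mk] at this
    simpa using this
  have hn : ∀ n, ‖a 0‖ * ‖b n‖ ≤ (if n = 0 then 1 else 0)
      + ∑ k ∈ range n, ‖a (k + 1)‖ * ‖b (n - (k + 1))‖ := by
    intro n
    have h1 := hcoef n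
    rw [Finset.sum_range_succ'] at h1
    have h2 : a 0 * b n = (if n = 0 then 1 else 0) - ∑ k ∈ range n, a (k + 1) * b (n - (k + 1)) := by
      rw [← h1]; simp
    calc ‖a 0‖ * ‖b n‖ = ‖a 0 * b n‖ := (norm_mul _ _).symm
      _ ≤ ‖(if n = 0 then (1 : ℂ) else 0)‖ + ‖∑ k ∈ range n, a (k + 1) * b (n - (k + 1))‖ := by
          rw [h2]; exact norm_sub_le _ _
      _ ≤ _ := by
          apply add_le_add
          · split_ifs <;> simp
          · refine (norm_sum_le _ _).trans (le_of_eq ?_)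
            apply Finset.sum_congr rfl
            intro k _
            rw [norm_mul]
  set B := ∑ n ∈ range N, ‖b n‖ with hB
  have hBnn : 0 ≤ B := Finset.sum_nonneg (fun _ _ => norm_nonneg _)
  have htail : ∑ k ∈ range N, ‖a (k + 1)‖ ≤ 1 - ‖a 0‖ := by
    have h1 := sum_le_hasSum (range (N + 1)) (fun i _ => norm_nonneg (a i)) ha
    rw [Finset.sum_range_succ'] at h1
    linarith
  have hdouble : ∑ n ∈ range N, ∑ k ∈ range n, ‖a (k + 1)‖ * ‖b (n - (k + 1))‖
      ≤ (∑ k ∈ range N, ‖a (k + 1)‖) * B := by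
    have h1 : ∑ n ∈ range N, ∑ k ∈ range n, ‖a (k + 1)‖ * ‖b (n - (k + 1))‖
        = ∑ k ∈ range N, ∑ n ∈ Ioo k N, ‖a (k + 1)‖ * ‖b (n - (k + 1))‖ := by
      apply Finset.sum_comm'
      intro x y
      simp only [mem_range, mem_Ioo]
      omega
    rw [h1, Finset.sum_mul]
    apply Finset.sum_le_sum
    intro k _
    rw [← Finset.mul_sum]
    apply mul_le_mul_of_nonneg_left _ (norm_nonneg _)
    rw [hB, ← Finset.sum_image (f := fun m => ‖b m‖) (s := Ioo k N) (g := fun n => n - (k + 1))]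
    · apply Finset.sum_le_sum_of_subset_of_nonneg
      · intro m hm
        simp only [mem_image, mem_Ioo, mem_range] at hm ⊢
        omega
      · intro _ _ _; exact norm_nonneg _
    · intro x hx y hy hxy
      simp only [coe_Ioo, Set.mem_Ioo] at hx hy hxy
      omega
  have hmain : ‖a 0‖ * B ≤ 1 + (1 - ‖a 0‖) * B := by
    calc ‖a 0‖ * B = ∑ n ∈ range N, ‖a 0‖ * ‖b n‖ := by rw [hB, Finset.mul_sum]
      _ ≤ ∑ n ∈ range N, ((if n = 0 then 1 else 0)
          + ∑ k ∈ range n, ‖a (k + 1)‖ * ‖b (n - (k + 1))‖) := Finset.sum_le_sum (fun n _ => hn n)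
      _ = ∑ n ∈ range N, (if n = 0 then (1 : ℝ) else 0)
          + ∑ n ∈ range N, ∑ k ∈ range n, ‖a (k + 1)‖ * ‖b (n - (k + 1))‖ :=
            Finset.sum_add_distrib
      _ ≤ 1 + (1 - ‖a 0‖) * B := by
          apply add_le_add
          · rw [Finset.sum_ite_eq']; split_ifs <;> norm_num
          · exact hdouble.trans (mul_le_mul_of_nonneg_right htail hBnn)
  have h2 : 0 < 2 * δ - 1 := by linarith
  rw [le_div_iff₀ h2]
  nlinarith

/-- Rudin-Shapiro signs -/
def rs : ℕ → (ℕ → ℂ) × (ℕ → ℂ)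
  | 0 => (fun _ => 1, fun _ => 1)
  | κ + 1 => (fun k => if k < 2 ^ κ then (rs κ).1 k else (rs κ).2 (k - 2 ^ κ),
      fun k => if k < 2 ^ κ then (rs κ).1 k else -(rs κ).2 (k - 2 ^ κ))

lemma rs_sq (κ : ℕ) : ∀ k, (rs κ).1 k * (rs κ).1 k = 1 ∧ (rs κ).2 k * (rs κ).2 k = 1 := by
  induction κ with
  | zero => intro k; simp [rs]
  | succ κ ih =>
    intro k
    unfold rs
    dsimp only
    split_ifs
    · exact ⟨(ih k).1, (ih k).1⟩
    · refine ⟨(ih _).2, ?_⟩
      rw [neg_mul_neg]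
      exact (ih _).2

lemma rs_norm (κ k : ℕ) : ‖(rs κ).1 k‖ = 1 := by
  have h := congrArg norm (rs_sq κ k).1
  rw [norm_mul, norm_one] at h
  nlinarith [norm_nonneg ((rs κ).1 k)]

noncomputable def rsP (κ : ℕ) (z : ℂ) : ℂ := ∑ k ∈ range (2 ^ κ), (rs κ).1 k * z ^ k
noncomputable def rsQ (κ : ℕ) (z : ℂ) : ℂ := ∑ k ∈ range (2 ^ κ), (rs κ).2 k * z ^ k

lemma rsP_succ (κ : ℕ) (z : ℂ) : rsP (κ + 1) z = rsP κ z + z ^ (2 ^ κ) * rsQ κ z := by
  unfold rsP rsQ
  rw [pow_succ, mul_two, Finset.sum_range_add, Finset.mul_sum]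
  congr 1
  · apply Finset.sum_congr rfl
    intro k hk
    rw [mem_range] at hk
    simp [rs, hk]
  · apply Finset.sum_congr rfl
    intro k _
    simp [rs, pow_add]
    ring

lemma rsQ_succ (κ : ℕ) (z : ℂ) : rsQ (κ + 1) z = rsP κ z - z ^ (2 ^ κ) * rsQ κ z := by
  unfold rsP rsQ
  rw [pow_succ, mul_two, Finset.sum_range_add, Finset.mul_sum, sub_eq_add_neg,
    ← Finset.sum_neg_distrib]
  congr 1
  · apply Finset.sum_congr rfl
    intro k hk
    rw [mem_range] at hk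
    simp [rs, hk]
  · apply Finset.sum_congr rfl
    intro k _
    simp [rs, pow_add]
    ring

lemma rs_bound (κ : ℕ) (z : ℂ) (hz : ‖z‖ ≤ 1) :
    ‖rsP κ z‖ ^ 2 + ‖rsQ κ z‖ ^ 2 ≤ 2 ^ (κ + 1) := by
  induction κ with
  | zero => simp [rsP, rsQ, rs]; norm_num
  | succ κ ih =>
    rw [rsP_succ, rsQ_succ]
    have hpar := parallelogram_law_with_norm ℝ (rsP κ z) (z ^ (2 ^ κ) * rsQ κ z)
    have h1 : ‖z ^ (2 ^ κ) * rsQ κ z‖ ≤ ‖rsQ κ z‖ := by
      rw [norm_mul, norm_pow]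
      exact mul_le_of_le_one_left (norm_nonneg _) (pow_le_one₀ (norm_nonneg _) hz)
    have h2 : ‖z ^ (2 ^ κ) * rsQ κ z‖ ^ 2 ≤ ‖rsQ κ z‖ ^ 2 :=
      pow_le_pow_left₀ (norm_nonneg _) h1 2
    rw [pow_succ 2 (κ + 1)]
    nlinarith

/-- for every ε there is κ with sup bound -/
lemma exists_small (ε : ℝ) (hε : 0 < ε) : ∃ κ : ℕ, ∀ z : ℂ, ‖z‖ ≤ 1 →
    ‖rsP κ z‖ ≤ ε * 2 ^ κ := by
  obtain ⟨κ, hκ⟩ := exists_nat_gt (2 / ε ^ 2)
  refine ⟨κ, fun z hz => ?_⟩
  have h1 := rs_bound κ z hz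
  have h2 : (κ : ℝ) < 2 ^ κ := by exact_mod_cast Nat.lt_two_pow_self
  have h3 : 2 < ε ^ 2 * 2 ^ κ := by
    have : 2 < κ * ε ^ 2 := by
      rwa [div_lt_iff₀ (by positivity)] at hκ
    nlinarith [sq_nonneg ε, pow_pos hε 2]
  have h4 : ‖rsP κ z‖ ^ 2 ≤ (ε * 2 ^ κ) ^ 2 := by
    have h5 : (0 : ℝ) < 2 ^ κ := by positivity
    have h6 : (2 : ℝ) ^ (κ + 1) = 2 * 2 ^ κ := by ring
    rw [h6] at h1
    have : (ε * 2 ^ κ) ^ 2 = (ε ^ 2 * 2 ^ κ) * 2 ^ κ := by ring
    rw [this]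
    have h7 := mul_lt_mul_of_pos_right h3 h5
    have h8 := sq_nonneg ‖rsQ κ z‖
    linarith
  exact abs_le_of_sq_le_sq' h4 (by positivity) |>.2

/-- digits -/
lemma digit (M : ℕ) (j0 : ℕ) : ∀ (K : ℕ) (d : ℕ → ℕ), (∀ j, d j < M) → j0 < K →
    (∑ j ∈ range K, d j * M ^ j) / M ^ j0 % M = d j0 := by
  induction j0 with
  | zero =>
    intro K d hd hK
    obtain ⟨K', rfl⟩ : ∃ K', K = K' + 1 := ⟨K - 1, by omega⟩
    rw [Finset.sum_range_succ']
    have : ∑ k ∈ range K', d (k + 1) * M ^ (k + 1) = M * ∑ k ∈ range K', d (k + 1) * M ^ k := by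
      rw [Finset.mul_sum]
      apply Finset.sum_congr rfl
      intro k _
      ring
    rw [this]
    simp [Nat.mod_eq_of_lt (hd 0)]
  | succ j0 ih =>
    intro K d hd hK
    obtain ⟨K', rfl⟩ : ∃ K', K = K' + 1 := ⟨K - 1, by omega⟩
    rw [Finset.sum_range_succ']
    have hM : 0 < M := lt_of_le_of_lt (Nat.zero_le _) (hd 0)
    have : ∑ k ∈ range K', d (k + 1) * M ^ (k + 1) = M * ∑ k ∈ range K', d (k + 1) * M ^ k := by
      rw [Finset.mul_sum]
      apply Finset.sum_congr rfl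
      intro k _
      ring
    rw [this, pow_succ', ← Nat.div_div_eq_div_mul, pow_zero, mul_one,
      Nat.add_comm, Nat.add_mul_div_left _ _ hM, Nat.div_eq_of_lt (hd 0), zero_add]
    exact ih K' (fun k => d (k + 1)) (fun j => hd _) (by omega)

/-- digit characters -/
noncomputable def chi (κ : ℕ) (d : ℕ) : ℂ := if d = 0 then 1 else (rs κ).1 (d - 1)

lemma chi_norm (κ d : ℕ) : ‖chi κ d‖ = 1 := by
  unfold chi
  split_ifs
  · simp
  · exact rs_norm _ _

noncomputable def cc (κ K : ℕ) (e : ℕ) : ℂ :=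
  ∏ j ∈ range K, chi κ (e / (2 ^ κ + 1) ^ j % (2 ^ κ + 1))

lemma cc_norm (κ K e : ℕ) : ‖cc κ K e‖ = 1 := by
  unfold cc
  rw [norm_prod]
  exact Finset.prod_eq_one (fun j _ => chi_norm _ _)

lemma functional_bound {ι : Type*} (s : Finset ι) (E : ι → ℕ) (v : ι → ℂ) (c : ℕ → ℂ)
    (hc : ∀ n, ‖c n‖ = 1) :
    ‖∑ x ∈ s, c (E x) * v x‖ₑ ≤ W (∑ x ∈ s, PowerSeries.monomial (E x) (v x)) := by
  classical
  have h1 : ∑ x ∈ s, c (E x) * v x
      = ∑ n ∈ s.image E, c n * ∑ x ∈ s.filter (fun x => E x = n), v x := by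
    rw [← Finset.sum_fiberwise_of_maps_to (g := E) (t := s.image E)
      (fun x hx => mem_image_of_mem _ hx)]
    apply Finset.sum_congr rfl
    intro n _
    rw [Finset.mul_sum]
    apply Finset.sum_congr rfl
    intro x hx
    rw [(mem_filter.mp hx).2]
  have h2 : ∀ n, PowerSeries.coeff n (∑ x ∈ s, PowerSeries.monomial (E x) (v x))
      = ∑ x ∈ s.filter (fun x => E x = n), v x := by
    intro n
    rw [map_sum, Finset.sum_filter]
    apply Finset.sum_congr rfl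
    intro x _
    rw [PowerSeries.coeff_monomial]
    simp only [eq_comm]
  rw [h1]
  unfold W
  refine (enorm_sum_le _ _).trans ?_
  calc ∑ n ∈ s.image E, ‖c n * ∑ x ∈ s.filter (fun x => E x = n), v x‖ₑ
      = ∑ n ∈ s.image E, ‖PowerSeries.coeff n (∑ x ∈ s, PowerSeries.monomial (E x) (v x))‖ₑ := by
        apply Finset.sum_congr rfl
        intro n _
        rw [h2, enorm_mul]
        have : ‖c n‖ₑ = 1 := by
          rw [← ofReal_norm, hc n, ENNReal.ofReal_one]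
        rw [this, one_mul]
    _ ≤ _ := ENNReal.sum_le_tsum _

/-- evaluation of the functional on injective products -/
lemma cc_inj (κ K m : ℕ) (J : Fin m → Fin K) (hJ : Function.Injective J)
    (k : Fin m → Fin (2 ^ κ)) :
    cc κ K (∑ i, ((k i : ℕ) + 1) * (2 ^ κ + 1) ^ (J i : ℕ)) = ∏ i, (rs κ).1 (k i) := by
  classical
  set M := 2 ^ κ + 1 with hM
  let d : ℕ → ℕ := fun j => ∑ i, if (J i : ℕ) = j then (k i : ℕ) + 1 else 0
  have hdJ : ∀ i, d (J i) = (k i : ℕ) + 1 := by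
    intro i
    change (∑ i', if (J i' : ℕ) = (J i : ℕ) then (k i' : ℕ) + 1 else 0) = _
    rw [Finset.sum_eq_single i]
    · simp
    · intro b _ hb
      rw [if_neg]
      intro h
      exact hb (hJ (Fin.ext h))
    · intro h; exact absurd (mem_univ _) h
  have hd0 : ∀ j, (∀ i, (J i : ℕ) ≠ j) → d j = 0 := by
    intro j hj
    apply Finset.sum_eq_zero
    intro i _
    rw [if_neg (hj i)]
  have hdlt : ∀ j, d j < M := by
    intro j
    by_cases h : ∃ i, (J i : ℕ) = j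
    · obtain ⟨i, rfl⟩ := h
      rw [hdJ, hM]
      have := (k i).2
      omega
    · push Not at h
      rw [hd0 j h, hM]; exact Nat.succ_pos _
  have hE : ∑ i, ((k i : ℕ) + 1) * M ^ (J i : ℕ) = ∑ j ∈ range K, d j * M ^ j := by
    simp only [d, Finset.sum_mul]
    rw [Finset.sum_comm]
    apply Finset.sum_congr rfl
    intro i _
    rw [Finset.sum_eq_single (J i : ℕ)]
    · simp
    · intro b _ hb
      rw [if_neg (fun h => hb h.symm), zero_mul]
    · intro h
      exact absurd (mem_range.mpr (J i).2) h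
  unfold cc
  rw [← hM, hE]
  have h1 : ∀ j ∈ range K, chi κ ((∑ j ∈ range K, d j * M ^ j) / M ^ j % M) = chi κ (d j) := by
    intro j hj
    rw [digit M j K d hdlt (mem_range.mp hj)]
  rw [Finset.prod_congr rfl h1]
  have h2 : ∏ j ∈ (univ.image (fun i => (J i : ℕ))), chi κ (d j) = ∏ j ∈ range K, chi κ (d j) := by
    apply Finset.prod_subset
    · intro j hj
      rw [mem_image] at hj
      obtain ⟨i, -, rfl⟩ := hj
      exact mem_range.mpr (J i).2
    · intro j _ hj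
      rw [hd0 j]
      · simp [chi]
      · intro i hi
        exact hj (mem_image.mpr ⟨i, mem_univ _, hi⟩)
  rw [← h2, Finset.prod_image]
  · apply Finset.prod_congr rfl
    intro i _
    rw [hdJ]
    simp [chi]
  · intro a _ b _ hab
    exact hJ (Fin.ext hab)

/-- the weights -/
noncomputable def wt (κ K : ℕ) (k : ℕ) : ℂ := (rs κ).1 k / (K * 2 ^ κ)

noncomputable def G (κ K : ℕ) : PowerSeries ℂ :=
  ∑ t : Fin K × Fin (2 ^ κ), PowerSeries.monomial (((t.2 : ℕ) + 1) * (2 ^ κ + 1) ^ (t.1 : ℕ))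
    (wt κ K t.2)

lemma wt_norm (κ K k : ℕ) : ‖wt κ K k‖ = 1 / (K * 2 ^ κ) := by
  unfold wt
  rw [norm_div, rs_norm, norm_mul, norm_pow]
  simp

lemma W_G (κ K : ℕ) (hK : 0 < K) : W (G κ K) ≤ 1 := by
  unfold G
  refine (W_sum_le _ _).trans ?_
  simp only [W_monomial]
  have : ∀ t : Fin K × Fin (2 ^ κ), ‖wt κ K t.2‖ₑ = ENNReal.ofReal (1 / (K * 2 ^ κ)) := by
    intro t
    rw [← ofReal_norm, wt_norm]
  simp only [this]
  rw [Finset.sum_const, Finset.card_univ, Fintype.card_prod, Fintype.card_fin, Fintype.card_fin,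
    nsmul_eq_mul]
  rw [← ENNReal.ofReal_natCast, ← ENNReal.ofReal_mul (by positivity)]
  have hK' : (K : ℝ) ≠ 0 := by positivity
  have : (((K * 2 ^ κ : ℕ) : ℝ)) * (1 / (K * 2 ^ κ)) = 1 := by
    push_cast
    field_simp
  rw [this, ENNReal.ofReal_one]

lemma G_pow (κ K m : ℕ) : G κ K ^ m = ∑ x : (Fin m → Fin K) × (Fin m → Fin (2 ^ κ)),
    PowerSeries.monomial (∑ i, ((x.2 i : ℕ) + 1) * (2 ^ κ + 1) ^ (x.1 i : ℕ))
      (∏ i, wt κ K (x.2 i)) := by
  unfold G
  rw [← Fin.prod_const m, Finset.prod_univ_sum]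
  rw [Fintype.piFinset_univ]
  rw [← (Equiv.arrowProdEquivProdArrow (Fin m) (fun _ => Fin K) (fun _ => Fin (2 ^ κ))).sum_comp]
  apply Finset.sum_congr rfl
  intro τ _
  have : ∀ (s : Finset (Fin m)) (E : Fin m → ℕ) (v : Fin m → ℂ),
      ∏ i ∈ s, PowerSeries.monomial (E i) (v i) = PowerSeries.monomial (∑ i ∈ s, E i) (∏ i ∈ s, v i) := by
    intro s E v
    induction s using Finset.induction_on with
    | empty => simp
    | insert a s ha ih =>
      rw [Finset.prod_insert ha, ih, Finset.sum_insert ha, Finset.prod_insert ha,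
        PowerSeries.monomial_mul_monomial]
  rw [this]
  rfl

lemma term_re (κ K m : ℕ) (x : (Fin m → Fin K) × (Fin m → Fin (2 ^ κ))) :
    (1 / (K * 2 ^ κ) : ℝ) ^ m * (2 * (if Function.Injective x.1 then 1 else 0) - 1) ≤
    (cc κ K (∑ i, ((x.2 i : ℕ) + 1) * (2 ^ κ + 1) ^ (x.1 i : ℕ)) * ∏ i, wt κ K (x.2 i)).re := by
  have hnorm : ‖cc κ K (∑ i, ((x.2 i : ℕ) + 1) * (2 ^ κ + 1) ^ (x.1 i : ℕ))
      * ∏ i, wt κ K (x.2 i)‖ = (1 / (K * 2 ^ κ) : ℝ) ^ m := by
    rw [norm_mul, cc_norm, one_mul, norm_prod]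
    simp only [wt_norm]
    rw [Fin.prod_const]
  split_ifs with h
  · rw [cc_inj κ K m x.1 h, ← Finset.prod_mul_distrib]
    have : ∀ i, (rs κ).1 (x.2 i) * wt κ K (x.2 i) = ((1 / (K * 2 ^ κ) : ℝ) : ℂ) := by
      intro i
      unfold wt
      rw [← mul_div_assoc, (rs_sq κ _).1]
      push_cast
      rfl
    simp only [this]
    rw [Fin.prod_const, ← Complex.ofReal_pow, Complex.ofReal_re]
    apply le_of_eq; ring
  · have h1 := Complex.abs_re_le_norm (cc κ K (∑ i, ((x.2 i : ℕ) + 1) * (2 ^ κ + 1) ^ (x.1 i : ℕ))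
      * ∏ i, wt κ K (x.2 i))
    rw [hnorm] at h1
    have h2 := neg_le_of_abs_le h1
    linarith

lemma count_inj (K m : ℕ) :
    (∑ J : Fin m → Fin K, (if Function.Injective J then (1 : ℝ) else 0)) = K.descFactorial m := by
  classical
  rw [Finset.sum_boole]
  congr 1
  have h1 : Fintype.card {J : Fin m → Fin K // Function.Injective J} = K.descFactorial m := by
    rw [Fintype.card_congr (Equiv.subtypeInjectiveEquivEmbedding (Fin m) (Fin K)),
      Fintype.card_embedding_eq, Fintype.card_fin, Fintype.card_fin]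
  rw [← h1, Fintype.card_subtype]

lemma sum_re (κ K m : ℕ) (hK : 0 < K) :
    2 * (K.descFactorial m : ℝ) / K ^ m - 1 ≤
    (∑ x : (Fin m → Fin K) × (Fin m → Fin (2 ^ κ)),
      cc κ K (∑ i, ((x.2 i : ℕ) + 1) * (2 ^ κ + 1) ^ (x.1 i : ℕ)) * ∏ i, wt κ K (x.2 i)).re := by
  rw [Complex.re_sum]
  refine le_trans (le_of_eq ?_) (Finset.sum_le_sum (fun x _ => term_re κ K m x))
  rw [← Finset.mul_sum, Fintype.sum_prod_type]
  have hin : ∀ J : Fin m → Fin K, ∑ _k : Fin m → Fin (2 ^ κ),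
      (2 * (if Function.Injective J then (1 : ℝ) else 0) - 1)
      = (2 ^ κ) ^ m * (2 * (if Function.Injective J then (1 : ℝ) else 0) - 1) := by
    intro J
    rw [Finset.sum_const, Finset.card_univ, Fintype.card_fun, Fintype.card_fin, Fintype.card_fin,
      nsmul_eq_mul]
    push_cast
    rfl
  have hin2 : ∑ x : Fin m → Fin K, ∑ y : Fin m → Fin (2 ^ κ),
      (2 * (if Function.Injective (x, y).1 then (1 : ℝ) else 0) - 1)
      = (2 ^ κ) ^ m * (2 * (K.descFactorial m : ℝ) - K ^ m) := by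
    have : ∑ x : Fin m → Fin K, ∑ y : Fin m → Fin (2 ^ κ),
      (2 * (if Function.Injective (x, y).1 then (1 : ℝ) else 0) - 1)
      = ∑ x : Fin m → Fin K,
        (2 ^ κ) ^ m * (2 * (if Function.Injective x then (1 : ℝ) else 0) - 1) :=
      Finset.sum_congr rfl (fun J _ => hin J)
    rw [this, ← Finset.mul_sum, Finset.sum_sub_distrib, ← Finset.mul_sum, count_inj]
    rw [Finset.sum_const, Finset.card_univ, Fintype.card_fun, Fintype.card_fin, Fintype.card_fin,
      nsmul_eq_mul]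
    push_cast
    ring
  rw [hin2]
  have hK' : (K : ℝ) ≠ 0 := by positivity
  have : (1 / (K * 2 ^ κ) : ℝ) ^ m = 1 / (K ^ m * (2 ^ κ) ^ m) := by
    rw [one_div, inv_pow, mul_pow, one_div]
  rw [this]
  field_simp

lemma S_lower (κ K L : ℕ) (hK : 0 < K) :
    ENNReal.ofReal (∑ m ∈ range L, (2 * (K.descFactorial m : ℝ) / K ^ m - 1)) ≤
      W (∑ m ∈ range L, G κ K ^ m) := by
  let s : Finset (Σ m : ℕ, (Fin m → Fin K) × (Fin m → Fin (2 ^ κ))) :=
    (range L).sigma (fun m => univ)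
  let E : (Σ m : ℕ, (Fin m → Fin K) × (Fin m → Fin (2 ^ κ))) → ℕ :=
    fun x => ∑ i, ((x.2.2 i : ℕ) + 1) * (2 ^ κ + 1) ^ (x.2.1 i : ℕ)
  let v : (Σ m : ℕ, (Fin m → Fin K) × (Fin m → Fin (2 ^ κ))) → ℂ :=
    fun x => ∏ i, wt κ K (x.2.2 i)
  have h1 : ∑ m ∈ range L, G κ K ^ m = ∑ x ∈ s, PowerSeries.monomial (E x) (v x) := by
    simp only [G_pow]
    rw [Finset.sum_sigma]
  rw [h1]
  refine le_trans ?_ (functional_bound s E v (cc κ K) (cc_norm κ K))
  rw [← ofReal_norm]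
  apply ENNReal.ofReal_le_ofReal
  refine le_trans ?_ (Complex.re_le_norm _)
  rw [Finset.sum_sigma, Complex.re_sum]
  exact Finset.sum_le_sum (fun m _ => sum_re κ K m hK)

lemma exists_K (L : ℕ) : ∃ K : ℕ, 0 < K ∧
    ∀ m ∈ range L, (1 / 2 : ℝ) ≤ 2 * (K.descFactorial m : ℝ) / K ^ m - 1 := by
  refine ⟨4 * L ^ 2 + 1, by positivity, fun m hm => ?_⟩
  rw [mem_range] at hm
  set K := 4 * L ^ 2 + 1 with hKdef
  have hK : (0 : ℝ) < K := by positivity
  have hLK : L ≤ K := by rw [hKdef]; nlinarith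
  have h1 : ((K + 1 - m : ℕ) : ℝ) ^ m ≤ K.descFactorial m := by
    exact_mod_cast K.pow_sub_le_descFactorial m
  have h2 : (K : ℝ) - L ≤ ((K + 1 - m : ℕ) : ℝ) := by
    have : K - L ≤ K + 1 - m := by omega
    have h3 : ((K - L : ℕ) : ℝ) ≤ ((K + 1 - m : ℕ) : ℝ) := by exact_mod_cast this
    rwa [Nat.cast_sub hLK] at h3
  have h3 : (0 : ℝ) ≤ (K : ℝ) - L := by
    have : (L : ℝ) ≤ K := by exact_mod_cast hLK
    linarith
  have h4 : ((K : ℝ) - L) ^ m ≤ K.descFactorial m := (pow_le_pow_left₀ h3 h2 m).trans h1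
  have h5 : (1 : ℝ) + m * (-(L / K)) ≤ (1 + -(L / K)) ^ m := by
    apply one_add_mul_le_pow
    have : (L : ℝ) / K ≤ 1 := by
      rw [div_le_one hK]; exact_mod_cast hLK
    linarith
  have h6 : (1 + -(L / K : ℝ)) ^ m = ((K : ℝ) - L) ^ m / K ^ m := by
    rw [← div_pow]
    congr 1
    field_simp
    ring
  have h7 : (m : ℝ) * (L / K) ≤ 1 / 4 := by
    rw [← mul_div_assoc, div_le_div_iff₀ hK (by norm_num)]
    have : (m : ℝ) * L ≤ L * L := by
      apply mul_le_mul_of_nonneg_right _ (by positivity)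
      exact_mod_cast hm.le
    have h8 : (K : ℝ) = 4 * L ^ 2 + 1 := by rw [hKdef]; push_cast; ring
    rw [h8]
    nlinarith
  have h8 : (3 / 4 : ℝ) ≤ K.descFactorial m / K ^ m := by
    have h9 : ((K : ℝ) - L) ^ m / K ^ m ≤ K.descFactorial m / K ^ m :=
      div_le_div_of_nonneg_right h4 (by positivity)
    rw [← h6] at h9
    linarith
  have h9 : 2 * (K.descFactorial m : ℝ) / K ^ m = 2 * (K.descFactorial m / K ^ m) := by ring
  rw [h9]
  linarith

lemma hasSum_norm_of_tsum {a : ℕ → ℂ} (h : ∑' n, ‖a n‖ₑ = 1) : HasSum (fun n => ‖a n‖) 1 := by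
  have h1 := ENNReal.hasSum_toReal (f := fun n => ‖a n‖ₑ) (by rw [h]; exact ENNReal.one_ne_top)
  rw [← ENNReal.tsum_toReal_eq (fun n => enorm_ne_top), h, ENNReal.toReal_one] at h1
  simpa using h1

lemma upper {δ : ℝ} (hδ : 1 / 2 < δ) {f : ℂ → ℂ} (hf : f ∈ Fam δ) :
    invNorm f ≤ ENNReal.ofReal (1 / (2 * δ - 1)) := by
  obtain ⟨hd, hn, hb⟩ := hf
  have hne : ∀ z ∈ ball (0 : ℂ) 1, f z ≠ 0 := by
    intro z hz h0
    have := hb z hz
    rw [h0, norm_zero] at this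
    linarith
  have hd' : DifferentiableOn ℂ (fun z => 1 / f z) (ball 0 1) := by
    simp only [one_div]
    exact hd.inv hne
  have hab := mk_mul_mk (fun z hz => hasSum_taylor hd hz) (fun z hz => hasSum_taylor hd' hz)
    (fun z hz => mul_one_div_cancel (hne z hz))
  have h0 : δ ≤ ‖taylorCoeff f 0‖ := by
    have := hb 0 (by simp)
    simpa [taylorCoeff] using this
  unfold invNorm wNorm
  apply ENNReal.tsum_le_of_sum_range_le
  intro N
  have h1 := inverse_bound hδ hab (hasSum_norm_of_tsum hn) h0 N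
  have h2 : ∑ n ∈ range N, ‖taylorCoeff (fun z => 1 / f z) n‖ₑ
      = ENNReal.ofReal (∑ n ∈ range N, ‖taylorCoeff (fun z => 1 / f z) n‖) := by
    rw [ENNReal.ofReal_sum_of_nonneg (fun _ _ => norm_nonneg _)]
    apply Finset.sum_congr rfl
    intro n _
    rw [ofReal_norm]
  rw [h2]
  exact ENNReal.ofReal_le_ofReal h1

lemma W_smul (c : ℂ) (P : PowerSeries ℂ) : W (c • P) = ‖c‖ₑ * W P := by
  unfold W
  rw [← ENNReal.tsum_mul_left]
  congr 1; funext n
  rw [map_smul, smul_eq_mul, enorm_mul]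

lemma hasSum_monomials {ι : Type*} (s : Finset ι) (E : ι → ℕ) (v : ι → ℂ) (z : ℂ) :
    HasSum (fun n => PowerSeries.coeff n (∑ x ∈ s, PowerSeries.monomial (E x) (v x)) * z ^ n)
      (∑ x ∈ s, v x * z ^ E x) := by
  have h1 : (fun n => PowerSeries.coeff n (∑ x ∈ s, PowerSeries.monomial (E x) (v x)) * z ^ n)
      = fun n => ∑ x ∈ s, PowerSeries.coeff n (PowerSeries.monomial (E x) (v x)) * z ^ n := by
    funext n
    rw [map_sum, Finset.sum_mul]
  rw [h1]
  apply hasSum_sum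
  intro x _
  have h2 := hasSum_single (f := fun n => PowerSeries.coeff n (PowerSeries.monomial (E x) (v x))
    * z ^ n) (E x) (by
      intro n hn
      rw [PowerSeries.coeff_monomial, if_neg hn, zero_mul])
  rw [PowerSeries.coeff_monomial_same] at h2
  exact h2

/-- the polynomial function of `G` -/
noncomputable def gfun (κ K : ℕ) (z : ℂ) : ℂ :=
  ∑ t : Fin K × Fin (2 ^ κ), wt κ K t.2 * z ^ (((t.2 : ℕ) + 1) * (2 ^ κ + 1) ^ (t.1 : ℕ))

lemma gfun_bound (κ K : ℕ) (hK : 0 < K) (ε : ℝ)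
    (h : ∀ z : ℂ, ‖z‖ ≤ 1 → ‖rsP κ z‖ ≤ ε * 2 ^ κ) (z : ℂ) (hz : ‖z‖ ≤ 1) :
    ‖gfun κ K z‖ ≤ ε := by
  unfold gfun
  rw [Fintype.sum_prod_type]
  have h1 : ∀ j : Fin K, ‖∑ k : Fin (2 ^ κ), wt κ K k * z ^ (((k : ℕ) + 1) * (2 ^ κ + 1) ^ (j : ℕ))‖
      ≤ ε / K := by
    intro j
    set w := z ^ (2 ^ κ + 1) ^ (j : ℕ) with hw
    have hw1 : ‖w‖ ≤ 1 := by
      rw [hw, norm_pow]; exact pow_le_one₀ (norm_nonneg _) hz
    have h2 : ∑ k : Fin (2 ^ κ), wt κ K k * z ^ (((k : ℕ) + 1) * (2 ^ κ + 1) ^ (j : ℕ))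
        = w * rsP κ w / (K * 2 ^ κ) := by
      unfold rsP
      rw [Finset.mul_sum, Finset.sum_div, ← Fin.sum_univ_eq_sum_range
        (fun k => w * ((rs κ).1 k * w ^ k) / (K * 2 ^ κ))]
      apply Finset.sum_congr rfl
      intro k _
      unfold wt
      rw [mul_comm ((k : ℕ) + 1) _, pow_mul, ← hw, pow_succ]
      ring
    have h34 : ‖(K : ℂ) * 2 ^ κ‖ = K * 2 ^ κ := by
      rw [norm_mul, norm_pow]; simp
    rw [h2, norm_div, norm_mul, h34]
    have hK' : (0 : ℝ) < K := by exact_mod_cast hK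
    rw [div_le_div_iff₀ (by positivity) hK']
    have h5 := h w hw1
    have h6 : ‖w‖ * ‖rsP κ w‖ ≤ ε * 2 ^ κ :=
      (mul_le_of_le_one_left (norm_nonneg _) hw1).trans h5
    nlinarith
  refine (norm_sum_le _ _).trans ((Finset.sum_le_sum (fun j _ => h1 j)).trans (le_of_eq ?_))
  rw [Finset.sum_const, Finset.card_univ, Fintype.card_fin, nsmul_eq_mul]
  have hK' : (K : ℝ) ≠ 0 := by positivity
  field_simp

lemma coeff_zero_G (κ K : ℕ) : PowerSeries.coeff 0 (G κ K) = 0 := by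
  unfold G
  rw [map_sum]
  apply Finset.sum_eq_zero
  intro t _
  rw [PowerSeries.coeff_monomial, if_neg]
  intro h
  have : 0 < ((t.2 : ℕ) + 1) * (2 ^ κ + 1) ^ (t.1 : ℕ) := by positivity
  omega

lemma lower {δ : ℝ} (hδ0 : 0 < δ) (hδ : δ < 1 / 2) (L : ℕ) :
    ∃ f ∈ Fam δ, ENNReal.ofReal (L / 2) ≤ 2 * invNorm f := by
  obtain ⟨κ, hκ⟩ := exists_small (1 - 2 * δ) (by linarith)
  obtain ⟨K, hK, hKL⟩ := exists_K L
  have hG := W_G κ K hK
  have hW2 : W (1 - G κ K) ≤ 2 := by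
    refine (W_sub_le _ _).trans ?_
    rw [W_one]
    refine (add_le_add le_rfl hG).trans (le_of_eq ?_)
    norm_num
  have hW1 : 1 ≤ W (1 - G κ K) := by
    have h1 : ‖PowerSeries.coeff 0 (1 - G κ K)‖ₑ ≤ W (1 - G κ K) :=
      ENNReal.le_tsum 0
    rw [map_sub, coeff_zero_G, sub_zero, PowerSeries.coeff_zero_one, enorm_one] at h1
    exact h1
  have hWtop : W (1 - G κ K) ≠ ⊤ := ne_top_of_le_ne_top (by norm_num) hW2
  set ν := (W (1 - G κ K)).toReal with hν
  have hν1 : 1 ≤ ν := by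
    have := ENNReal.toReal_mono hWtop hW1
    simpa using this
  have hν2 : ν ≤ 2 := by
    have := ENNReal.toReal_mono (by norm_num) hW2
    simpa using this
  have hν0 : 0 < ν := by linarith
  set f : ℂ → ℂ := fun z => ((ν⁻¹ : ℝ) : ℂ) * (1 - gfun κ K z) with hf
  set F : PowerSeries ℂ := ((ν⁻¹ : ℝ) : ℂ) • (1 - G κ K) with hF
  have hd : DifferentiableOn ℂ f (ball 0 1) := by
    apply Differentiable.differentiableOn
    rw [hf]
    unfold gfun
    fun_prop
  have hsum : ∀ z : ℂ, HasSum (fun n => PowerSeries.coeff n F * z ^ n) (f z) := by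
    intro z
    have h1 := hasSum_monomials (univ : Finset (Fin K × Fin (2 ^ κ)))
      (fun t => ((t.2 : ℕ) + 1) * (2 ^ κ + 1) ^ (t.1 : ℕ)) (fun t => wt κ K t.2) z
    have h2 := hasSum_monomials (univ : Finset (Fin 1)) (fun _ => 0) (fun _ => (1 : ℂ)) z
    have h3 := (h2.sub h1).mul_left ((ν⁻¹ : ℝ) : ℂ)
    have e1 : (fun n => ((ν⁻¹ : ℝ) : ℂ) * (PowerSeries.coeff n
        (∑ _x ∈ (univ : Finset (Fin 1)), PowerSeries.monomial 0 (1 : ℂ)) * z ^ n
        - PowerSeries.coeff n (∑ t ∈ (univ : Finset (Fin K × Fin (2 ^ κ))),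
          PowerSeries.monomial (((t.2 : ℕ) + 1) * (2 ^ κ + 1) ^ (t.1 : ℕ)) (wt κ K t.2)) * z ^ n))
        = fun n => PowerSeries.coeff n F * z ^ n := by
      funext n
      rw [hF, map_smul, smul_eq_mul, map_sub, ← sub_mul, mul_assoc]
      congr 3
      simp
    rw [← e1]
    have e2 : ((ν⁻¹ : ℝ) : ℂ) * (∑ _x ∈ (univ : Finset (Fin 1)), (1 : ℂ) * z ^ 0
        - ∑ t ∈ (univ : Finset (Fin K × Fin (2 ^ κ))),
          wt κ K t.2 * z ^ (((t.2 : ℕ) + 1) * (2 ^ κ + 1) ^ (t.1 : ℕ))) = f z := by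
      rw [hf]
      simp [gfun]
    rw [← e2]
    exact h3
  have htay : taylorCoeff f = fun n => PowerSeries.coeff n F :=
    coeff_unique (fun z hz => hasSum_taylor hd hz) (fun z _ => hsum z)
  have hge : ∀ z ∈ ball (0 : ℂ) 1, δ ≤ ‖f z‖ := by
    intro z hz
    rw [mem_ball_zero_iff] at hz
    have h1 := gfun_bound κ K hK _ hκ z hz.le
    have h2 : 2 * δ ≤ ‖1 - gfun κ K z‖ := by
      have := norm_sub_norm_le (1 : ℂ) (gfun κ K z)
      rw [norm_one] at this
      linarith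
    rw [hf]
    simp only [norm_mul, Complex.norm_real, Real.norm_eq_abs]
    rw [abs_of_pos (by positivity)]
    have h3 : (1 / 2 : ℝ) ≤ ν⁻¹ := by
      rw [one_div]; exact inv_anti₀ hν0 hν2
    nlinarith
  have hnorm : wNorm f = 1 := by
    unfold wNorm
    rw [htay]
    change W F = 1
    rw [hF, W_smul, ← ENNReal.ofReal_toReal hWtop, ← hν, ← ofReal_norm, Complex.norm_real,
      Real.norm_eq_abs, abs_of_pos (by positivity), ← ENNReal.ofReal_mul (by positivity),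
      inv_mul_cancel₀ hν0.ne', ENNReal.ofReal_one]
  refine ⟨f, ⟨hd, hnorm, hge⟩, ?_⟩
  have hne : ∀ z ∈ ball (0 : ℂ) 1, f z ≠ 0 := by
    intro z hz h0
    have := hge z hz
    rw [h0, norm_zero] at this
    linarith
  have hd' : DifferentiableOn ℂ (fun z => 1 / f z) (ball 0 1) := by
    simp only [one_div]
    exact hd.inv hne
  have hab := mk_mul_mk (fun z hz => hasSum_taylor hd hz) (fun z hz => hasSum_taylor hd' hz)
    (fun z hz => mul_one_div_cancel (hne z hz))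
  have hmkF : PowerSeries.mk (taylorCoeff f) = F := by
    rw [htay]; ext n; simp
  rw [hmkF] at hab
  set B : PowerSeries ℂ := PowerSeries.mk (taylorCoeff fun z => 1 / f z) with hB
  have hWB : W B = invNorm f := by
    unfold W invNorm wNorm
    congr 1; funext n
    rw [hB, PowerSeries.coeff_mk]
  have h1 : (1 - G κ K) * (((ν⁻¹ : ℝ) : ℂ) • B) = 1 := by
    rw [mul_smul_comm, ← smul_mul_assoc, ← hF]
    exact hab
  have h2 : ∑ m ∈ range L, G κ K ^ m = (1 - G κ K ^ L) * (((ν⁻¹ : ℝ) : ℂ) • B) := by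
    rw [← geom_sum_mul_neg, mul_assoc, h1, mul_one]
  have h3 := S_lower κ K L hK
  have h4 : ENNReal.ofReal (L / 2) ≤
      ENNReal.ofReal (∑ m ∈ range L, (2 * (K.descFactorial m : ℝ) / K ^ m - 1)) := by
    apply ENNReal.ofReal_le_ofReal
    calc (L : ℝ) / 2 = ∑ _m ∈ range L, (1 / 2 : ℝ) := by
          rw [Finset.sum_const, card_range, nsmul_eq_mul]; ring
      _ ≤ _ := Finset.sum_le_sum hKL
  refine h4.trans (h3.trans ?_)
  rw [h2]
  refine (W_mul_le _ _).trans ?_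
  apply mul_le_mul'
  · refine (W_sub_le _ _).trans ?_
    rw [W_one]
    refine (add_le_add le_rfl (W_pow_le _ hG L)).trans (le_of_eq ?_)
    norm_num
  · rw [W_smul, hWB]
    apply mul_le_of_le_one_left'
    rw [← ofReal_norm, Complex.norm_real, Real.norm_eq_abs, abs_of_pos (by positivity)]
    rw [← ENNReal.ofReal_one]
    apply ENNReal.ofReal_le_ofReal
    exact inv_le_one_of_one_le₀ hν1

lemma supInv_eq_top {δ : ℝ} (hδ0 : 0 < δ) (hδ : δ < 1 / 2) : supInv δ = ⊤ := by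
  by_contra hne
  have hlt : 2 * supInv δ < ⊤ := ENNReal.mul_lt_top (by norm_num) (lt_top_iff_ne_top.mpr hne)
  obtain ⟨n, hn⟩ := ENNReal.exists_nat_gt hlt.ne
  obtain ⟨f, hf, hL⟩ := lower hδ0 hδ (2 * n)
  have h1 : invNorm f ≤ supInv δ := le_iSup₂ (f := fun f (_ : f ∈ Fam δ) => invNorm f) f hf
  have h2 : ((n : ENNReal)) ≤ 2 * supInv δ := by
    have e : ENNReal.ofReal (((2 * n : ℕ) : ℝ) / 2) = n := by
      push_cast
      rw [mul_div_cancel_left₀ _ (by norm_num), ENNReal.ofReal_natCast]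
    rw [e] at hL
    exact hL.trans (mul_le_mul' le_rfl h1)
  exact absurd (lt_of_lt_of_le hn h2) (lt_irrefl _)

/-- The threshold is `1/2`. -/
theorem result : delta0 = 1 / 2 := by
  unfold delta0
  apply csInf_eq_of_forall_ge_of_forall_gt_exists_lt
  · refine ⟨1, by norm_num, le_rfl, ?_⟩
    exact lt_of_le_of_lt (iSup₂_le (fun f hf => upper (by norm_num) hf)) ENNReal.ofReal_lt_top
  · rintro δ ⟨h0, -, hlt⟩
    by_contra h
    push Not at h
    rw [supInv_eq_top h0 h] at hlt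
    exact lt_irrefl _ hlt
  · intro w hw
    refine ⟨min ((w + 1 / 2) / 2) 1, ⟨?_, min_le_right _ _, ?_⟩, ?_⟩
    · rw [lt_min_iff]; constructor <;> linarith
    · have h1 : 1 / 2 < min ((w + 1 / 2) / 2) 1 := by
        rw [lt_min_iff]; constructor <;> linarith
      exact lt_of_le_of_lt (iSup₂_le (fun f hf => upper h1 hf)) ENNReal.ofReal_lt_top
    · exact lt_of_le_of_lt (min_le_left _ _) (by linarith)

end Pool.Agent.Results.MP_de3d06_an.WienerThreshold
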